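import Pool.Agent.helper42.LAD.Base

/-!
# Project fg: (MP_70a088_an, FIRST STEP gamma): the DOMAIN (output of PART L, input of PARTS E, T, C)

One structure for the three cases: DISC (`N = 1`, `sz` constant), BAND between two collars (`N = nt q a`, `jj l = ji q a l`, `sz z = c ‖f^a z - z‖`), BAND with one collar (the puncture is not in `D 0`). `F = it f q`, `V z = it f q z - z`. The sets `D 0 ⊇ D 1 ⊇ .. ⊇ D 7` are the same domain with deeper and deeper collars; everything between `D 7` and the end of `D 0` is in a cell.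
-/

set_option autoImplicit false

open Complex Metric Set Filter Topology MeasureTheory
open RTB
open RTD (it dit gd)

noncomputable section

namespace FGD

/-- THE DOMAIN of PART L. `κ` = quality (relative displacement in the local scale `sz`, as small as you want), `A` = the constant of the cells (depends on `f`, `κ`). -/
structure DOM (f : RM) (q N : ℕ) (jj : ℕ → ℕ) (D : ℕ → Set ℂ) (sz : ℂ → ℝ) (κ A : ℝ) : Prop where
  np : 0 < N
  /-- phases: `it f (jj l)`, `l < N`. -/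
  j0 : jj 0 = 0
  jq : ∀ l < N, jj l < q
  cy : ∀ l < N, ∀ m < N, jj l + jj m = jj ((l + m) % N) ∨ jj l + jj m = jj ((l + m) % N) + q
  op : ∀ k ≤ 7, IsOpen (D k)
  bd : Bornology.IsBounded (D 0)
  mo : ∀ k < 7, D (k + 1) ⊆ D k
  gd : ∀ z ∈ D 0, gd f (q + q) z
  /-- the local scale. -/
  sp : ∀ z ∈ D 0, 0 < sz z
  sl : ∀ z ∈ D 0, ∀ w ∈ D 0, w ∈ ball z (sz z) → sz w ≤ 2 * sz z ∧ sz z ≤ 2 * sz w
  nb : ∀ k < 7, ∀ z ∈ D (k + 1), ball z (sz z) ⊆ D k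
  ne : ∀ z ∈ D 0, ‖it f q z - z‖ ≤ κ * sz z
  /-- the leash (so `F` is injective on `D 0`, and winding numbers are invariant under `F`). -/
  le : ∀ z ∈ D 0, ∀ w ∈ D 0, ‖(it f q w - w) - (it f q z - z)‖ ≤ κ * ‖w - z‖
  /-- the phases map `D (k+1)` into `D k` (for `F` itself: `nb` and `ne`). -/
  ph : ∀ k < 7, ∀ l < N, ∀ z ∈ D (k + 1), it f (jj l) z ∈ D k
  /-- the cells. -/
  cl : ∃ (M : ℕ) (Q : ℕ → Set ℂ) (s : ℕ → ℝ), M ≤ 2 * N ∧
    (∀ i < M, MeasurableSet (Q i) ∧ 0 < s i ∧ volume (Q i) ≤ ENNReal.ofReal (A * s i ^ 2)) ∧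
    ∀ z ∈ D 0, z ∉ D 7 → ∃ i < M, s i ≤ ‖it f q z - z‖ ∧ ball z (s i) ⊆ Q i

/-- a place in the domain: a ball in `D 7` whose images under `f^i`, `i < q`, are pairwise disjoint, and on which `F` is (relatively) as near to the identity as given. -/
structure PLC (f : RM) (q : ℕ) (D : ℕ → Set ℂ) (y : ℂ) (r : ℝ) : Prop where
  rp : 0 < r
  sub : ball y r ⊆ D 7
  dj : ∀ i j, i < j → j < q → Disjoint (it f i '' ball y r) (it f j '' ball y r)

/-- near identity at one place. -/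
def NR (f : RM) (q : ℕ) (w : ℂ) (r e : ℝ) : Prop := (∀ z ∈ ball w r, gd f q z) ∧ InjOn (it f q) (ball w r) ∧ ∀ z ∈ ball w r, ‖it f q z - z‖ ≤ e * r

/-- no closer return. -/
def FAR (f : RM) (q : ℕ) (w : ℂ) (r : ℝ) : Prop := ∀ m : ℕ, 0 < m → m < q → r ≤ ‖it f m w - w‖

/-- THE OUTPUT OF PART L. -/
def DOMX_stmt : Prop := ∀ f : RM, RTK.NF f → ∀ κ₀ κ : ℝ, 0 < κ₀ → 0 < κ → ∃ c₀ > (0 : ℝ), ∃ A > (0 : ℝ), ∃ e₀ > (0 : ℝ), ∀ (q : ℕ) (y : ℂ) (r₀ : ℝ),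
  1 ≤ q → 0 < r₀ → NR f q y r₀ e₀ → FAR f q y (κ₀ * r₀) → ∃ (N : ℕ) (jj : ℕ → ℕ) (D : ℕ → Set ℂ) (sz : ℂ → ℝ), DOM f q N jj D sz κ A ∧ PLC f q D y (c₀ * r₀)

/-- `F` is injective on `D 0`. -/
theorem DOM.inj {f : RM} {q N : ℕ} {jj : ℕ → ℕ} {D : ℕ → Set ℂ} {sz : ℂ → ℝ} {κ A : ℝ} (h : DOM f q N jj D sz κ A) (hκ : κ < 1) : InjOn (it f q) (D 0) := by
  intro z hz w hw e
  by_contra hne
  have h1 := h.le z hz w hw
  rw [e] at h1
  have h2 : (it f q w - w) - (it f q w - z) = -(w - z) := by ring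
  rw [h2, norm_neg] at h1
  have h3 : 0 < ‖w - z‖ := norm_pos_iff.2 (sub_ne_zero.2 (Ne.symm hne))
  nlinarith

/-- all phases are injective on `D 0`. -/
theorem DOM.injp {f : RM} {q N : ℕ} {jj : ℕ → ℕ} {D : ℕ → Set ℂ} {sz : ℂ → ℝ} {κ A : ℝ} (h : DOM f q N jj D sz κ A) (hκ : κ < 1) {m : ℕ} (hm : m ≤ q) : InjOn (it f m) (D 0) :=
  LADR.inj_of (h.inj hκ) hm

/-- the sets decrease. -/
theorem DOM.sub {f : RM} {q N : ℕ} {jj : ℕ → ℕ} {D : ℕ → Set ℂ} {sz : ℂ → ℝ} {κ A : ℝ} (h : DOM f q N jj D sz κ A) : ∀ {i j : ℕ}, i ≤ j → j ≤ 7 → D j ⊆ D i := by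
  intro i j hij
  induction j with
  | zero =>
    intro _
    have : i = 0 := by omega
    rw [this]
  | succ n ih =>
    intro hj
    rcases Nat.lt_or_ge i (n + 1) with h1 | h1
    · exact (h.mo n (by omega)).trans (ih (by omega) (by omega))
    · have : i = n + 1 := by omega
      rw [this]

/-- `F` maps `D (k+1)` into `D k`. -/
theorem DOM.st {f : RM} {q N : ℕ} {jj : ℕ → ℕ} {D : ℕ → Set ℂ} {sz : ℂ → ℝ} {κ A : ℝ} (h : DOM f q N jj D sz κ A) (hκ : κ < 1) {k : ℕ} (hk : k < 7) {z : ℂ} (hz : z ∈ D (k + 1)) : it f q z ∈ D k := by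
  have h0 : z ∈ D 0 := h.sub (Nat.zero_le _) (by omega) hz
  refine h.nb k hk z hz ?_
  rw [mem_ball, dist_eq_norm]
  have h1 := h.ne z h0
  have h2 := h.sp z h0
  nlinarith

end FGD
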